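import Mathlib

/-!
# One step of the orthogonalisation of a weighted family of unit vectors
-/

set_option autoImplicit false

noncomputable section

namespace Pool.Agent.V11261.MT

open Finset

variable {E : Type*} [NormedAddCommGroup E] [InnerProductSpace ℂ E]
variable {ι : Type*}

/-- `Q h = ∑_{b ∈ s} ⟨w_b, h⟩ w_b` -/
def QL (s : Finset ι) (w : ι → E) : E →ₗ[ℂ] E where
  toFun h := ∑ b ∈ s, inner ℂ (w b) h • w b
  map_add' x y := by
    simp only [inner_add_right, add_smul, Finset.sum_add_distrib]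
  map_smul' c x := by
    simp only [inner_smul_right, mul_smul, Finset.smul_sum, RingHom.id_apply]

theorem QL_apply (s : Finset ι) (w : ι → E) (h : E) :
    QL s w h = ∑ b ∈ s, inner ℂ (w b) h • w b := rfl

theorem QL_symm (s : Finset ι) (w : ι → E) (x y : E) :
    inner ℂ (QL s w x) y = inner ℂ x (QL s w y) := by
  rw [QL_apply, QL_apply, sum_inner, inner_sum]
  refine Finset.sum_congr rfl fun b _ => ?_
  rw [inner_smul_left, inner_smul_right, inner_conj_symm, mul_comm]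

/-- `Q` is a projection -/
def Idem (s : Finset ι) (w : ι → E) : Prop := ∀ h, QL s w (QL s w h) = QL s w h

theorem mul_inner_symm (x y : E) : inner ℂ x y * inner ℂ y x = ((‖inner ℂ x y‖ ^ 2 : ℝ) : ℂ) := by
  rw [← inner_conj_symm y x, Complex.mul_conj, Complex.normSq_eq_norm_sq]

theorem norm_inner_symm' (x y : E) : ‖inner ℂ x y‖ = ‖inner ℂ y x‖ := norm_inner_symm x y

theorem inner_QL_self (s : Finset ι) (w : ι → E) (h : E) :
    inner ℂ h (QL s w h) = ((∑ b ∈ s, ‖inner ℂ (w b) h‖ ^ 2 : ℝ) : ℂ) := by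
  rw [QL_apply, inner_sum, Complex.ofReal_sum]
  refine Finset.sum_congr rfl fun b _ => ?_
  rw [inner_smul_right, mul_inner_symm]

theorem inner_self_ofReal (x : E) : inner ℂ x x = ((‖x‖ ^ 2 : ℝ) : ℂ) := by
  rw [inner_self_eq_norm_sq_to_K]
  push_cast
  rfl

theorem norm_QL_sq {s : Finset ι} {w : ι → E} (hw : Idem s w) (h : E) :
    ‖QL s w h‖ ^ 2 = ∑ b ∈ s, ‖inner ℂ (w b) h‖ ^ 2 := by
  have h1 : inner ℂ (QL s w h) (QL s w h) = ((∑ b ∈ s, ‖inner ℂ (w b) h‖ ^ 2 : ℝ) : ℂ) := by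
    rw [QL_symm, hw, inner_QL_self]
  rw [inner_self_ofReal] at h1
  exact Complex.ofReal_injective h1

theorem norm_sub_QL_sq {s : Finset ι} {w : ι → E} (hw : Idem s w) (h : E) :
    ‖h - QL s w h‖ ^ 2 = ‖h‖ ^ 2 - ∑ b ∈ s, ‖inner ℂ (w b) h‖ ^ 2 := by
  have h1 := norm_sub_sq (𝕜 := ℂ) h (QL s w h)
  rw [inner_QL_self, norm_QL_sq hw] at h1
  have h2 : RCLike.re ((∑ b ∈ s, ‖inner ℂ (w b) h‖ ^ 2 : ℝ) : ℂ) =
      ∑ b ∈ s, ‖inner ℂ (w b) h‖ ^ 2 := Complex.ofReal_re _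
  rw [h2] at h1
  rw [h1]
  ring

theorem bessel {s : Finset ι} {w : ι → E} (hw : Idem s w) (h : E) :
    ∑ b ∈ s, ‖inner ℂ (w b) h‖ ^ 2 ≤ ‖h‖ ^ 2 := by
  have h1 := norm_sub_QL_sq hw h
  have h2 := sq_nonneg ‖h - QL s w h‖
  linarith

theorem norm_le_one {s : Finset ι} {w : ι → E} (hw : Idem s w) {b : ι} (hb : b ∈ s) :
    ‖w b‖ ≤ 1 := by
  have h1 := bessel hw (w b)
  have h2 : ‖inner ℂ (w b) (w b)‖ ^ 2 ≤ ∑ c ∈ s, ‖inner ℂ (w c) (w b)‖ ^ 2 :=
    Finset.single_le_sum (f := fun c => ‖inner ℂ (w c) (w b)‖ ^ 2) (fun c _ => by positivity) hb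
  rw [inner_self_ofReal, Complex.norm_real, Real.norm_eq_abs, abs_of_nonneg (sq_nonneg _)] at h2
  have h3 := h2.trans h1
  by_contra hlt
  rw [not_le] at hlt
  have h4 : 1 < ‖w b‖ ^ 2 := by nlinarith [norm_nonneg (w b)]
  nlinarith

theorem basis_ext {N : ℕ} (u : OrthonormalBasis (Fin N) ℂ E) {x y : E}
    (h : ∀ z, inner ℂ (u z) x = inner ℂ (u z) y) : x = y := by
  apply u.repr.injective
  ext z
  rw [u.repr_apply_apply, u.repr_apply_apply, h z]

theorem scalar_ineq {s : ℝ} (hs : 0 ≤ s) : (3 / 2) * s - (1 / 2) * s ^ 2 ≤ Real.sqrt s := by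
  obtain ⟨t, ht⟩ : ∃ t, t = Real.sqrt s := ⟨_, rfl⟩
  have ht0 : 0 ≤ t := by rw [ht]; exact Real.sqrt_nonneg _
  have hts : s = t ^ 2 := by rw [ht, Real.sq_sqrt hs]
  rw [← ht, hts]
  have h1 : 0 ≤ t * ((t - 1) ^ 2 * (t + 2)) := by positivity
  nlinarith

/-- the Hilbert Schmidt norm of `Q` -/
theorem sum_norm_QL {N : ℕ} (u : OrthonormalBasis (Fin N) ℂ E) (T : Finset ι) (v : ι → E) :
    ∑ x, ‖QL T v (u x)‖ ^ 2 = ∑ a ∈ T, ∑ b ∈ T, ‖inner ℂ (v a) (v b)‖ ^ 2 := by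
  have h2 : ∀ x, ((‖QL T v (u x)‖ ^ 2 : ℝ) : ℂ) = ∑ a ∈ T, ∑ b ∈ T,
      inner ℂ (v a) (v b) * (inner ℂ (v b) (u x) * inner ℂ (u x) (v a)) := by
    intro x
    rw [← inner_self_ofReal, QL_apply, sum_inner]
    refine Finset.sum_congr rfl fun a _ => ?_
    rw [inner_sum]
    refine Finset.sum_congr rfl fun b _ => ?_
    rw [inner_smul_left, inner_smul_right, inner_conj_symm]
    ring
  apply Complex.ofReal_injective
  rw [Complex.ofReal_sum, Complex.ofReal_sum]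
  simp only [h2, Complex.ofReal_sum]
  rw [Finset.sum_comm]
  refine Finset.sum_congr rfl fun a _ => ?_
  rw [Finset.sum_comm]
  refine Finset.sum_congr rfl fun b _ => ?_
  rw [← Finset.mul_sum, u.sum_inner_mul_inner, mul_inner_symm]

/-- the step -/
theorem step [FiniteDimensional ℂ E] [DecidableEq ι] {s T : Finset ι} (hd : Disjoint s T)
    {w : ι → E} (hw : Idem s w) {v : ι → E} (hv : ∀ a ∈ T, ‖v a‖ = 1) :
    ∃ w' : ι → E, (∀ b ∈ s, w' b = w b) ∧ Idem (s ∪ T) w' ∧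
      (3 / 2) * ((T.card : ℝ) - ∑ a ∈ T, ∑ b ∈ s, ‖inner ℂ (w b) (v a)‖ ^ 2)
        - (1 / 2) * ∑ a ∈ T, ∑ b ∈ T, ‖inner ℂ (v a) (v b)‖ ^ 2 ≤
      ∑ a ∈ T, (inner ℂ (w' a) (v a)).re := by
  obtain ⟨v', hv'⟩ : ∃ v' : ι → E, ∀ a, v' a = v a - QL s w (v a) := ⟨_, fun _ => rfl⟩
  have hS : (QL T v').IsSymmetric := QL_symm T v'
  obtain ⟨N, hN⟩ : ∃ N, Module.finrank ℂ E = N := ⟨_, rfl⟩
  obtain ⟨u, σ, heig⟩ : ∃ (u : OrthonormalBasis (Fin N) ℂ E) (σ : Fin N → ℝ),
      ∀ x, QL T v' (u x) = (σ x : ℂ) • u x :=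
    ⟨hS.eigenvectorBasis hN, hS.eigenvalues hN, fun x => hS.apply_eigenvectorBasis hN x⟩
  have hite : ∀ x y, inner ℂ (u x) (u y) = if x = y then (1 : ℂ) else 0 :=
    orthonormal_iff_ite.1 u.orthonormal
  have hQv' : ∀ a, QL s w (v' a) = 0 := fun a => by rw [hv', map_sub, hw, sub_self]
  -- the Gram identity
  have hK : ∀ x y, ∑ a ∈ T, inner ℂ (u x) (v' a) * inner ℂ (v' a) (u y) =
      if x = y then (σ y : ℂ) else 0 := by
    intro x y
    have h1 : inner ℂ (u x) (QL T v' (u y)) =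
        ∑ a ∈ T, inner ℂ (u x) (v' a) * inner ℂ (v' a) (u y) := by
      rw [QL_apply, inner_sum]
      refine Finset.sum_congr rfl fun a _ => ?_
      rw [inner_smul_right, mul_comm]
    rw [← h1, heig, inner_smul_right, hite]
    split_ifs <;> simp
  have hσ : ∀ x, σ x = ∑ a ∈ T, ‖inner ℂ (v' a) (u x)‖ ^ 2 := by
    intro x
    have h1 := inner_QL_self T v' (u x)
    rw [heig, inner_smul_right, hite, if_pos rfl, mul_one] at h1
    exact Complex.ofReal_injective h1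
  have hσ0 : ∀ x, 0 ≤ σ x := fun x => by
    rw [hσ]
    exact Finset.sum_nonneg fun a _ => by positivity
  have hQu : ∀ x, σ x ≠ 0 → QL s w (u x) = 0 := by
    intro x hx
    have h1 : (σ x : ℂ) • QL s w (u x) = 0 := by
      rw [← map_smul, ← heig, QL_apply T, map_sum]
      refine Finset.sum_eq_zero fun a _ => ?_
      rw [map_smul, hQv', smul_zero]
    rcases smul_eq_zero.1 h1 with h2 | h2
    · exact absurd (Complex.ofReal_eq_zero.1 h2) hx
    · exact h2
  -- the new vectors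
  obtain ⟨r, hr⟩ : ∃ r : Fin N → ℝ, ∀ x, r x = (Real.sqrt (σ x))⁻¹ := ⟨_, fun _ => rfl⟩
  have hr0 : ∀ x, σ x = 0 → r x = 0 := fun x hx => by rw [hr, hx]; simp
  obtain ⟨wn, hwn⟩ : ∃ wn : ι → E, ∀ a, wn a = ∑ x, ((r x : ℂ) * inner ℂ (u x) (v' a)) • u x :=
    ⟨_, fun _ => rfl⟩
  have hwu : ∀ a z, inner ℂ (u z) (wn a) = (r z : ℂ) * inner ℂ (u z) (v' a) := by
    intro a z
    rw [hwn, inner_sum, Finset.sum_eq_single z]
    · rw [inner_smul_right, hite, if_pos rfl, mul_one]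
    · intro x _ hx
      rw [inner_smul_right, hite, if_neg (Ne.symm hx), mul_zero]
    · intro h
      exact absurd (Finset.mem_univ z) h
  have hwi : ∀ a h, inner ℂ (wn a) h =
      ∑ x, (r x : ℂ) * inner ℂ (v' a) (u x) * inner ℂ (u x) h := by
    intro a h
    rw [hwn, sum_inner]
    refine Finset.sum_congr rfl fun x _ => ?_
    rw [inner_smul_left, map_mul, Complex.conj_ofReal, inner_conj_symm]
  obtain ⟨χ, hχ⟩ : ∃ χ : Fin N → ℝ, ∀ x, χ x = r x * r x * σ x := ⟨_, fun _ => rfl⟩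
  have hχ2 : ∀ x, χ x * χ x = χ x := by
    intro x
    by_cases hx : σ x = 0
    · rw [hχ, hx, mul_zero, mul_zero]
    · have h1 : 0 < σ x := lt_of_le_of_ne (hσ0 x) (Ne.symm hx)
      have h2 : χ x = 1 := by
        rw [hχ, hr, ← mul_inv, Real.mul_self_sqrt h1.le, inv_mul_cancel₀ hx]
      rw [h2, mul_one]
  have hR : ∀ h z, inner ℂ (u z) (QL T wn h) = (χ z : ℂ) * inner ℂ (u z) h := by
    intro h z
    rw [QL_apply, inner_sum]
    have h1 : ∀ a ∈ T, inner ℂ (u z) (inner ℂ (wn a) h • wn a) =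
        ∑ x, (r x : ℂ) * (r z : ℂ) * inner ℂ (u x) h *
          (inner ℂ (u z) (v' a) * inner ℂ (v' a) (u x)) := by
      intro a _
      rw [inner_smul_right, hwu, hwi, Finset.sum_mul]
      refine Finset.sum_congr rfl fun x _ => ?_
      ring
    rw [Finset.sum_congr rfl h1, Finset.sum_comm]
    have h2 : ∀ x ∈ Finset.univ, ∑ a ∈ T, (r x : ℂ) * (r z : ℂ) * inner ℂ (u x) h *
          (inner ℂ (u z) (v' a) * inner ℂ (v' a) (u x)) =
        (r x : ℂ) * (r z : ℂ) * inner ℂ (u x) h * (if z = x then (σ x : ℂ) else 0) := by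
      intro x _
      rw [← Finset.mul_sum, hK]
    rw [Finset.sum_congr rfl h2, Finset.sum_eq_single z]
    · rw [if_pos rfl, hχ]
      push_cast
      ring
    · intro x _ hx
      rw [if_neg (Ne.symm hx), mul_zero]
    · intro h
      exact absurd (Finset.mem_univ z) h
  have hRR : ∀ h, QL T wn (QL T wn h) = QL T wn h := by
    intro h
    refine basis_ext u fun z => ?_
    rw [hR, hR, ← mul_assoc, ← Complex.ofReal_mul, hχ2]
  have hRQ : ∀ h, QL T wn (QL s w h) = 0 := by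
    intro h
    refine basis_ext u fun z => ?_
    rw [hR, inner_zero_right, ← QL_symm]
    by_cases hz : σ z = 0
    · rw [hχ, hz, mul_zero, Complex.ofReal_zero, zero_mul]
    · rw [hQu z hz, inner_zero_left, mul_zero]
  have hQR : ∀ h, QL s w (QL T wn h) = 0 := by
    intro h
    have h1 : inner ℂ (QL s w (QL T wn h)) (QL s w (QL T wn h)) = 0 := by
      rw [QL_symm s w, QL_symm T wn, hRQ, inner_zero_right]
    exact inner_self_eq_zero.1 h1
  obtain ⟨w', hw'⟩ : ∃ w' : ι → E, ∀ b, w' b = if b ∈ T then wn b else w b := ⟨_, fun _ => rfl⟩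
  have hws : ∀ b ∈ s, w' b = w b := fun b hb => by
    rw [hw', if_neg (Finset.disjoint_left.1 hd hb)]
  have hwT : ∀ b ∈ T, w' b = wn b := fun b hb => by rw [hw', if_pos hb]
  have hsplit : ∀ h, QL (s ∪ T) w' h = QL s w h + QL T wn h := by
    intro h
    rw [QL_apply, Finset.sum_union hd, QL_apply, QL_apply]
    congr 1
    · exact Finset.sum_congr rfl fun b hb => by rw [hws b hb]
    · exact Finset.sum_congr rfl fun b hb => by rw [hwT b hb]
  refine ⟨w', hws, ?_, ?_⟩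
  · intro h
    rw [hsplit, hsplit, map_add, map_add, hw, hQR, hRQ, hRR, add_zero, zero_add]
  · -- the value
    have hval : ∀ a ∈ T, (inner ℂ (w' a) (v a)).re = ∑ x, r x * ‖inner ℂ (v' a) (u x)‖ ^ 2 := by
      intro a ha
      rw [hwT a ha, hwi, Complex.re_sum]
      refine Finset.sum_congr rfl fun x _ => ?_
      by_cases hx : σ x = 0
      · rw [hr0 x hx]
        simp
      · have h1 : inner ℂ (u x) (v a) = inner ℂ (u x) (v' a) := by
          rw [hv', inner_sub_right, ← QL_symm, hQu x hx, inner_zero_left, sub_zero]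
        rw [h1, mul_assoc, mul_inner_symm, ← Complex.ofReal_mul, Complex.ofReal_re]
    rw [Finset.sum_congr rfl hval, Finset.sum_comm (s := T) (t := Finset.univ)]
    have hval2 : ∀ x ∈ Finset.univ, ∑ a ∈ T, r x * ‖inner ℂ (v' a) (u x)‖ ^ 2 =
        Real.sqrt (σ x) := by
      intro x _
      rw [← Finset.mul_sum, ← hσ, hr]
      by_cases hx : σ x = 0
      · rw [hx]; simp
      · have h1 : 0 < Real.sqrt (σ x) :=
          Real.sqrt_pos.2 (lt_of_le_of_ne (hσ0 x) (Ne.symm hx))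
        conv_lhs => rw [← Real.mul_self_sqrt (hσ0 x)]
        rw [Real.mul_self_sqrt (hσ0 x)]
        rw [inv_mul_eq_div, Real.div_sqrt]
    rw [Finset.sum_congr rfl hval2]
    have hsum1 : ∑ x, σ x = (T.card : ℝ) - ∑ a ∈ T, ∑ b ∈ s, ‖inner ℂ (w b) (v a)‖ ^ 2 := by
      simp only [hσ]
      rw [Finset.sum_comm]
      have h1 : ∀ a ∈ T, ∑ x, ‖inner ℂ (v' a) (u x)‖ ^ 2 =
          1 - ∑ b ∈ s, ‖inner ℂ (w b) (v a)‖ ^ 2 := by
        intro a ha
        rw [u.sum_sq_norm_inner_left, hv', norm_sub_QL_sq hw, hv a ha, one_pow]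
      rw [Finset.sum_congr rfl h1, Finset.sum_sub_distrib]
      simp
    have hsum2 : ∑ x, σ x ^ 2 ≤ ∑ a ∈ T, ∑ b ∈ T, ‖inner ℂ (v a) (v b)‖ ^ 2 := by
      have h1 : ∀ x, σ x ^ 2 ≤ ‖QL T v (u x)‖ ^ 2 := by
        intro x
        by_cases hx : σ x = 0
        · rw [hx, zero_pow two_ne_zero]
          positivity
        · have h2 : σ x = ∑ a ∈ T, ‖inner ℂ (v a) (u x)‖ ^ 2 := by
            rw [hσ]
            refine Finset.sum_congr rfl fun a _ => ?_
            have : inner ℂ (v' a) (u x) = inner ℂ (v a) (u x) := by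
              rw [hv', inner_sub_left, QL_symm, hQu x hx, inner_zero_right, sub_zero]
            rw [this]
          have h3 : (σ x : ℂ) = inner ℂ (u x) (QL T v (u x)) := by
            rw [inner_QL_self, ← h2]
          have h4 : σ x ≤ ‖QL T v (u x)‖ := by
            have h5 : ‖(σ x : ℂ)‖ ≤ ‖u x‖ * ‖QL T v (u x)‖ := by
              rw [h3]
              exact norm_inner_le_norm _ _
            rw [Complex.norm_real, Real.norm_eq_abs, abs_of_nonneg (hσ0 x), u.norm_eq_one,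
              one_mul] at h5
            exact h5
          exact pow_le_pow_left₀ (hσ0 x) h4 2
      exact (Finset.sum_le_sum fun x _ => h1 x).trans (le_of_eq (sum_norm_QL u T v))
    have hsum3 : ∑ x, ((3 / 2) * σ x - (1 / 2) * σ x ^ 2) ≤ ∑ x, Real.sqrt (σ x) :=
      Finset.sum_le_sum fun x _ => scalar_ineq (hσ0 x)
    rw [Finset.sum_sub_distrib, ← Finset.mul_sum, ← Finset.mul_sum, hsum1] at hsum3
    linarith

end Pool.Agent.V11261.MT
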