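import Mathlib
import Pool.Agent.V11261.MT.Step

/-!
# The multi-scale orthogonalisation
-/

set_option autoImplicit false

noncomputable section

namespace Pool.Agent.V11261.MT

open Finset

variable {E : Type*} [NormedAddCommGroup E] [InnerProductSpace ℂ E]
variable {ι : Type*} [DecidableEq ι]

/-- the squared overlap of two different members of a family -/
def ovl (v : ι → E) (a b : ι) : ℝ := if a = b then 0 else ‖inner ℂ (v a) (v b)‖ ^ 2

theorem ovl_nonneg (v : ι → E) (a b : ι) : 0 ≤ ovl v a b := by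
  unfold ovl
  split_ifs
  · exact le_rfl
  · positivity

theorem ovl_comm (v : ι → E) (a b : ι) : ovl v a b = ovl v b a := by
  unfold ovl
  by_cases h : a = b
  · rw [if_pos h, if_pos h.symm]
  · rw [if_neg h, if_neg (Ne.symm h), norm_inner_symm']

/-- the projections of the new vectors onto the old space -/
theorem q_bound [FiniteDimensional ℂ E] {s T : Finset ι} (hd : Disjoint s T)
    {w : ι → E} (hw : Idem s w) {v : ι → E} (hv : ∀ a ∈ s ∪ T, ‖v a‖ = 1)
    (hsame : ∑ a ∈ T, ∑ b ∈ T, ‖inner ℂ (v a) (v b)‖ ^ 2 =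
      T.card + ∑ a ∈ T, ∑ b ∈ T, ovl v a b) :
    ∑ a ∈ T, ∑ b ∈ s, ‖inner ℂ (w b) (v a)‖ ^ 2 ≤
      2 * ∑ a ∈ T, ∑ b ∈ s, ovl v a b + 8 * ∑ b ∈ s, (1 - (inner ℂ (w b) (v b)).re) +
      2 * ∑ a ∈ T, ∑ b ∈ T, ovl v a b := by
  have hS : (QL T v).IsSymmetric := QL_symm T v
  obtain ⟨N, hN⟩ : ∃ N, Module.finrank ℂ E = N := ⟨_, rfl⟩
  obtain ⟨u, σ, heig⟩ : ∃ (u : OrthonormalBasis (Fin N) ℂ E) (σ : Fin N → ℝ),
      ∀ x, QL T v (u x) = (σ x : ℂ) • u x :=
    ⟨hS.eigenvectorBasis hN, hS.eigenvalues hN, fun x => hS.apply_eigenvectorBasis hN x⟩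
  have hite : ∀ x y, inner ℂ (u x) (u y) = if x = y then (1 : ℂ) else 0 :=
    orthonormal_iff_ite.1 u.orthonormal
  have hσ : ∀ x, σ x = ∑ a ∈ T, ‖inner ℂ (v a) (u x)‖ ^ 2 := by
    intro x
    have h1 := inner_QL_self T v (u x)
    rw [heig, inner_smul_right, hite, if_pos rfl, mul_one] at h1
    exact Complex.ofReal_injective h1
  have hσ0 : ∀ x, 0 ≤ σ x := fun x => by
    rw [hσ]
    exact Finset.sum_nonneg fun a _ => by positivity
  have hform : ∀ h : E, ∑ a ∈ T, ‖inner ℂ (v a) h‖ ^ 2 = ∑ x, σ x * ‖inner ℂ (u x) h‖ ^ 2 := by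
    intro h
    apply Complex.ofReal_injective
    rw [← inner_QL_self, ← u.sum_inner_mul_inner, Complex.ofReal_sum]
    refine Finset.sum_congr rfl fun x _ => ?_
    rw [← QL_symm, heig, inner_smul_left, Complex.conj_ofReal, Complex.ofReal_mul,
      ← mul_inner_symm]
    ring
  have hs1 : ∑ x, σ x = T.card := by
    simp only [hσ]
    rw [Finset.sum_comm]
    have h1 : ∀ a ∈ T, ∑ x, ‖inner ℂ (v a) (u x)‖ ^ 2 = 1 := by
      intro a ha
      rw [u.sum_sq_norm_inner_left, hv a (Finset.mem_union_right _ ha), one_pow]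
    rw [Finset.sum_congr rfl h1]
    simp
  have hs2 : ∑ x, σ x ^ 2 = T.card + ∑ a ∈ T, ∑ b ∈ T, ovl v a b := by
    rw [← hsame, ← sum_norm_QL u T v]
    refine Finset.sum_congr rfl fun x _ => ?_
    rw [heig, norm_smul, u.norm_eq_one, mul_one, Complex.norm_real, Real.norm_eq_abs, sq_abs]
  -- the rank
  have hrank : (((Finset.univ : Finset (Fin N)).filter fun x => σ x ≠ 0).card : ℝ) ≤ T.card := by
    classical
    have hli : LinearIndependent ℂ (fun x : {x // σ x ≠ 0} => u x.1) :=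
      u.orthonormal.linearIndependent.comp _ Subtype.val_injective
    have h1 := finrank_span_eq_card hli
    have h2 : Submodule.span ℂ (Set.range fun x : {x // σ x ≠ 0} => u x.1) ≤
        Submodule.span ℂ ((T.image v : Finset E) : Set E) := by
      rw [Submodule.span_le]
      rintro _ ⟨x, rfl⟩
      have h3 : u x.1 = ((σ x.1 : ℂ))⁻¹ • QL T v (u x.1) := by
        rw [heig, smul_smul, inv_mul_cancel₀ (Complex.ofReal_ne_zero.2 x.2), one_smul]
      simp only [SetLike.mem_coe]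
      rw [h3, QL_apply]
      refine Submodule.smul_mem _ _ (Submodule.sum_mem _ fun a ha => Submodule.smul_mem _ _ ?_)
      exact Submodule.subset_span (by
        rw [Finset.mem_coe]
        exact Finset.mem_image_of_mem v ha)
    have h3 := Submodule.finrank_mono h2
    have h4 := finrank_span_finset_le_card (R := ℂ) (T.image v)
    have h5 : (T.image v).card ≤ T.card := Finset.card_image_le
    have h6 : Fintype.card {x // σ x ≠ 0} =
        ((Finset.univ : Finset (Fin N)).filter fun x => σ x ≠ 0).card := Fintype.card_subtype _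
    rw [h1, h6] at h3
    exact_mod_cast h3.trans (h4.trans h5)
  have hbig : ∑ x, (if 2 < σ x then σ x else 0) ≤ 2 * ∑ a ∈ T, ∑ b ∈ T, ovl v a b := by
    have h1 : ∀ x ∈ Finset.univ, (if 2 < σ x then σ x else 0) ≤
        2 * (σ x ^ 2 - 2 * σ x + if σ x ≠ 0 then 1 else 0) := by
      intro x _
      have h0 := hσ0 x
      by_cases hx : 2 < σ x
      · rw [if_pos hx, if_pos (by linarith)]
        nlinarith
      · rw [if_neg hx]
        by_cases hx0 : σ x = 0
        · rw [hx0]; simp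
        · rw [if_pos hx0]
          nlinarith [sq_nonneg (σ x - 1)]
    refine (Finset.sum_le_sum h1).trans ?_
    rw [← Finset.mul_sum, Finset.sum_add_distrib, Finset.sum_sub_distrib, ← Finset.mul_sum, hs1,
      hs2]
    have h2 : ∑ x, (if σ x ≠ 0 then (1 : ℝ) else 0) =
        (((Finset.univ : Finset (Fin N)).filter fun x => σ x ≠ 0).card : ℝ) := by
      rw [← Finset.sum_filter]
      simp
    rw [h2]
    linarith
  -- the errors
  have herr : ∀ b ∈ s, ‖v b - w b‖ ^ 2 ≤ 2 * (1 - (inner ℂ (w b) (v b)).re) := by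
    intro b hb
    have e4 := norm_sub_sq (𝕜 := ℂ) (v b) (w b)
    have e5 : RCLike.re (inner ℂ (v b) (w b)) = (inner ℂ (w b) (v b)).re := by
      rw [← inner_conj_symm]
      exact Complex.conj_re _
    have e6 := norm_le_one hw hb
    have e7 := norm_nonneg (w b)
    rw [e5, hv b (Finset.mem_union_left _ hb)] at e4
    nlinarith
  have hterm : ∀ x ∈ Finset.univ, ∑ b ∈ s, σ x * ‖inner ℂ (u x) (w b)‖ ^ 2 ≤
      (if 2 < σ x then σ x else 0) + ∑ b ∈ s, (2 * (σ x * ‖inner ℂ (u x) (v b)‖ ^ 2) +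
        4 * ‖inner ℂ (u x) (v b - w b)‖ ^ 2) := by
    intro x _
    have h0 := hσ0 x
    by_cases hx : 2 < σ x
    · rw [if_pos hx]
      have h1 : ∑ b ∈ s, σ x * ‖inner ℂ (u x) (w b)‖ ^ 2 ≤ σ x := by
        rw [← Finset.mul_sum]
        have h2 := bessel hw (u x)
        rw [u.norm_eq_one, one_pow] at h2
        have h3 : ∑ b ∈ s, ‖inner ℂ (u x) (w b)‖ ^ 2 = ∑ b ∈ s, ‖inner ℂ (w b) (u x)‖ ^ 2 :=
          Finset.sum_congr rfl fun b _ => by rw [norm_inner_symm']
        rw [h3]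
        nlinarith
      have h2 : 0 ≤ ∑ b ∈ s, (2 * (σ x * ‖inner ℂ (u x) (v b)‖ ^ 2) +
          4 * ‖inner ℂ (u x) (v b - w b)‖ ^ 2) :=
        Finset.sum_nonneg fun b _ => by positivity
      linarith
    · rw [if_neg hx, zero_add]
      rw [not_lt] at hx
      refine Finset.sum_le_sum fun b _ => ?_
      have e3 : inner ℂ (u x) (w b) = inner ℂ (u x) (v b) - inner ℂ (u x) (v b - w b) := by
        rw [inner_sub_right]
        ring
      have e4 : ‖inner ℂ (u x) (w b)‖ ≤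
          ‖inner ℂ (u x) (v b)‖ + ‖inner ℂ (u x) (v b - w b)‖ := by
        rw [e3]
        exact norm_sub_le _ _
      obtain ⟨p, hp⟩ : ∃ p, p = ‖inner ℂ (u x) (v b)‖ := ⟨_, rfl⟩
      obtain ⟨q, hq⟩ : ∃ q, q = ‖inner ℂ (u x) (v b - w b)‖ := ⟨_, rfl⟩
      rw [← hp, ← hq] at e4 ⊢
      have e5 := norm_nonneg (inner ℂ (u x) (w b))
      have e6 : ‖inner ℂ (u x) (w b)‖ ^ 2 ≤ 2 * p ^ 2 + 2 * q ^ 2 := by
        have := pow_le_pow_left₀ e5 e4 2
        nlinarith [sq_nonneg (p - q)]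
      have e7 : σ x * ‖inner ℂ (u x) (w b)‖ ^ 2 ≤ σ x * (2 * p ^ 2 + 2 * q ^ 2) :=
        mul_le_mul_of_nonneg_left e6 h0
      nlinarith [mul_le_mul_of_nonneg_right hx (sq_nonneg q)]
  have hq1 : ∑ a ∈ T, ∑ b ∈ s, ‖inner ℂ (w b) (v a)‖ ^ 2 =
      ∑ x, ∑ b ∈ s, σ x * ‖inner ℂ (u x) (w b)‖ ^ 2 := by
    rw [Finset.sum_comm, Finset.sum_comm (s := Finset.univ)]
    refine Finset.sum_congr rfl fun b _ => ?_
    rw [← hform]
    exact Finset.sum_congr rfl fun a _ => by rw [norm_inner_symm']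
  rw [hq1]
  refine (Finset.sum_le_sum hterm).trans ?_
  rw [Finset.sum_add_distrib]
  have h7 : ∑ x, ∑ b ∈ s, (2 * (σ x * ‖inner ℂ (u x) (v b)‖ ^ 2) +
      4 * ‖inner ℂ (u x) (v b - w b)‖ ^ 2) =
      2 * ∑ a ∈ T, ∑ b ∈ s, ovl v a b + 4 * ∑ b ∈ s, ‖v b - w b‖ ^ 2 := by
    rw [Finset.sum_comm, Finset.sum_comm (s := T), Finset.mul_sum, Finset.mul_sum,
      ← Finset.sum_add_distrib]
    refine Finset.sum_congr rfl fun b hb => ?_
    rw [Finset.sum_add_distrib, ← Finset.mul_sum, ← Finset.mul_sum, ← hform,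
      u.sum_sq_norm_inner_right]
    congr 2
    refine Finset.sum_congr rfl fun a ha => ?_
    have hab : a ≠ b := fun h => Finset.disjoint_left.1 hd hb (h ▸ ha)
    unfold ovl
    rw [if_neg hab]
  rw [h7]
  have h8 := Finset.sum_le_sum herr
  rw [← Finset.mul_sum] at h8
  linarith

/-- one level -/
theorem level [FiniteDimensional ℂ E] {s T : Finset ι} (hd : Disjoint s T)
    {w : ι → E} (hw : Idem s w) {v : ι → E} (hv : ∀ a ∈ s ∪ T, ‖v a‖ = 1) :
    ∃ w' : ι → E, (∀ b ∈ s, w' b = w b) ∧ Idem (s ∪ T) w' ∧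
      ∑ a ∈ T, (1 - (inner ℂ (w' a) (v a)).re) ≤
        3 * ∑ a ∈ T, ∑ b ∈ s, ovl v a b +
        12 * ∑ b ∈ s, (1 - (inner ℂ (w b) (v b)).re) +
        (7 / 2) * ∑ a ∈ T, ∑ b ∈ T, ovl v a b := by
  obtain ⟨w', h1, h2, h3⟩ := step hd hw (v := v) (fun a ha => hv a (Finset.mem_union_right _ ha))
  refine ⟨w', h1, h2, ?_⟩
  -- the same level
  have hsame : ∑ a ∈ T, ∑ b ∈ T, ‖inner ℂ (v a) (v b)‖ ^ 2 =
      T.card + ∑ a ∈ T, ∑ b ∈ T, ovl v a b := by
    have e1 : ∀ a ∈ T, ∑ b ∈ T, ‖inner ℂ (v a) (v b)‖ ^ 2 = 1 + ∑ b ∈ T, ovl v a b := by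
      intro a ha
      rw [← Finset.add_sum_erase T _ ha, ← Finset.add_sum_erase T (ovl v a) ha]
      have e2 : ovl v a a = 0 := by unfold ovl; rw [if_pos rfl]
      have e3 : ‖inner ℂ (v a) (v a)‖ ^ 2 = 1 := by
        rw [inner_self_ofReal, Complex.norm_real, hv a (Finset.mem_union_right _ ha)]
        norm_num
      rw [e2, e3, zero_add]
      congr 1
      refine Finset.sum_congr rfl fun b hb => ?_
      unfold ovl
      rw [if_neg (Finset.ne_of_mem_erase hb).symm]
    rw [Finset.sum_congr rfl e1, Finset.sum_add_distrib]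
    simp
  have hq := q_bound hd hw hv hsame
  rw [Finset.sum_sub_distrib]
  simp only [Finset.sum_const, nsmul_eq_mul, mul_one]
  rw [hsame] at h3
  linarith

/-- the construction through all levels -/
theorem build [FiniteDimensional ℂ E] (s : Finset ι) (lev : ι → ℕ) {v : ι → E}
    (hv : ∀ a ∈ s, ‖v a‖ = 1) {τ : ℕ → ℝ}
    (hτ0 : ∀ k, 0 ≤ τ k) (hτ : ∀ k, 25 * τ (k + 1) = τ k) (k : ℕ) :
    ∃ w : ι → E, Idem (s.filter fun a => lev a < k) w ∧
      ∑ a ∈ s.filter (fun a => lev a < k),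
        (τ (lev a) + 25 * τ k) * (1 - (inner ℂ (w a) (v a)).re) ≤
      7 * ∑ a ∈ s.filter (fun a => lev a < k), ∑ b ∈ s.filter (fun a => lev a < k),
        τ (max (lev a) (lev b)) * ovl v a b := by
  induction k with
  | zero =>
    have h0 : s.filter (fun a => lev a < 0) = ∅ := by simp
    rw [h0]
    refine ⟨v, fun h => ?_, by simp⟩
    simp [QL_apply]
  | succ k ih =>
    obtain ⟨w, hw, hle⟩ := ih
    obtain ⟨S, hS⟩ : ∃ S, S = s.filter (fun a => lev a < k) := ⟨_, rfl⟩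
    obtain ⟨T, hT⟩ : ∃ T, T = s.filter (fun a => lev a = k) := ⟨_, rfl⟩
    have hST : s.filter (fun a => lev a < k + 1) = S ∪ T := by
      rw [hS, hT, ← Finset.filter_or]
      refine Finset.filter_congr fun a _ => ?_
      omega
    have hd : Disjoint S T := by
      rw [hS, hT, Finset.disjoint_filter]
      intro a _ h1 h2
      omega
    rw [← hS] at hw hle
    rw [hST]
    have hSs : ∀ a ∈ S, a ∈ s ∧ lev a < k := fun a ha => by
      rw [hS] at ha
      exact Finset.mem_filter.1 ha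
    have hTs : ∀ a ∈ T, a ∈ s ∧ lev a = k := fun a ha => by
      rw [hT] at ha
      exact Finset.mem_filter.1 ha
    obtain ⟨w', hw1, hw2, hw3⟩ := level hd hw (v := v) (fun a ha => by
      rcases Finset.mem_union.1 ha with h | h
      · exact hv a (hSs a h).1
      · exact hv a (hTs a h).1)
    refine ⟨w', hw2, ?_⟩
    rw [Finset.sum_union hd]
    have e1 : ∑ a ∈ S, (τ (lev a) + 25 * τ (k + 1)) * (1 - (inner ℂ (w' a) (v a)).re) =
        ∑ a ∈ S, (τ (lev a) + τ k) * (1 - (inner ℂ (w a) (v a)).re) := by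
      refine Finset.sum_congr rfl fun a ha => ?_
      rw [hw1 a ha, hτ]
    have e2 : ∑ a ∈ T, (τ (lev a) + 25 * τ (k + 1)) * (1 - (inner ℂ (w' a) (v a)).re) =
        2 * τ k * ∑ a ∈ T, (1 - (inner ℂ (w' a) (v a)).re) := by
      rw [Finset.mul_sum]
      refine Finset.sum_congr rfl fun a ha => ?_
      rw [(hTs a ha).2, hτ]
      ring
    rw [e1, e2]
    have e3 : ∑ a ∈ S, (τ (lev a) + τ k) * (1 - (inner ℂ (w a) (v a)).re) +
        24 * τ k * ∑ a ∈ S, (1 - (inner ℂ (w a) (v a)).re) =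
        ∑ a ∈ S, (τ (lev a) + 25 * τ k) * (1 - (inner ℂ (w a) (v a)).re) := by
      rw [Finset.mul_sum, ← Finset.sum_add_distrib]
      refine Finset.sum_congr rfl fun a _ => ?_
      ring
    -- the double sum
    have e4 : ∑ a ∈ S ∪ T, ∑ b ∈ S ∪ T, τ (max (lev a) (lev b)) * ovl v a b =
        (∑ a ∈ S, ∑ b ∈ S, τ (max (lev a) (lev b)) * ovl v a b) +
        2 * (τ k * ∑ a ∈ T, ∑ b ∈ S, ovl v a b) + τ k * ∑ a ∈ T, ∑ b ∈ T, ovl v a b := by
      rw [Finset.sum_union hd]
      simp only [Finset.sum_union hd, Finset.sum_add_distrib]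
      have f1 : ∑ a ∈ S, ∑ b ∈ T, τ (max (lev a) (lev b)) * ovl v a b =
          τ k * ∑ a ∈ T, ∑ b ∈ S, ovl v a b := by
        rw [Finset.sum_comm, Finset.mul_sum]
        refine Finset.sum_congr rfl fun a ha => ?_
        rw [Finset.mul_sum]
        refine Finset.sum_congr rfl fun b hb => ?_
        rw [ovl_comm v b a, (hTs a ha).2, max_eq_right (hSs b hb).2.le]
      have f2 : ∑ a ∈ T, ∑ b ∈ S, τ (max (lev a) (lev b)) * ovl v a b =
          τ k * ∑ a ∈ T, ∑ b ∈ S, ovl v a b := by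
        rw [Finset.mul_sum]
        refine Finset.sum_congr rfl fun a ha => ?_
        rw [Finset.mul_sum]
        refine Finset.sum_congr rfl fun b hb => ?_
        rw [(hTs a ha).2, max_eq_left (hSs b hb).2.le]
      have f3 : ∑ a ∈ T, ∑ b ∈ T, τ (max (lev a) (lev b)) * ovl v a b =
          τ k * ∑ a ∈ T, ∑ b ∈ T, ovl v a b := by
        rw [Finset.mul_sum]
        refine Finset.sum_congr rfl fun a ha => ?_
        rw [Finset.mul_sum]
        refine Finset.sum_congr rfl fun b hb => ?_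
        rw [(hTs a ha).2, (hTs b hb).2, max_self]
      rw [f1, f2, f3]
      ring
    rw [e4]
    have e5 := mul_le_mul_of_nonneg_left hw3 (show 0 ≤ 2 * τ k by
      have := hτ0 k
      linarith)
    have e6 : 0 ≤ τ k * ∑ a ∈ T, ∑ b ∈ S, ovl v a b :=
      mul_nonneg (hτ0 k) (Finset.sum_nonneg fun a _ => Finset.sum_nonneg fun b _ =>
        ovl_nonneg v a b)
    nlinarith

/-- the family of small loss -/
theorem family [FiniteDimensional ℂ E] [Fintype ι] {lam : ι → ℝ} (hlam : ∀ a, 0 ≤ lam a)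
    {v : ι → E} (hv : ∀ a, ‖v a‖ = 1) :
    ∃ w : ι → E, (∀ h : E, ∑ a, ‖inner ℂ (w a) h‖ ^ 2 ≤ ‖h‖ ^ 2) ∧
      ∑ a, lam a * (1 - (inner ℂ (w a) (v a)).re) ≤
        175 * ∑ a, ∑ b, min (lam a) (lam b) * ovl v a b := by
  obtain ⟨τ0, hτ0⟩ : ∃ τ0 : ℝ, τ0 = ∑ a, lam a + 1 := ⟨_, rfl⟩
  have hτ0pos : 0 < τ0 := by
    rw [hτ0]
    have := Finset.sum_nonneg fun a (_ : a ∈ Finset.univ) => hlam a
    linarith
  have hlamτ : ∀ a, lam a ≤ τ0 := by
    intro a
    rw [hτ0]
    have := Finset.single_le_sum (fun a _ => hlam a) (Finset.mem_univ a)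
    linarith
  obtain ⟨τ, hτ⟩ : ∃ τ : ℕ → ℝ, ∀ k, τ k = τ0 / 25 ^ k := ⟨_, fun _ => rfl⟩
  have hτnn : ∀ k, 0 ≤ τ k := fun k => by rw [hτ]; positivity
  have hτs : ∀ k, 25 * τ (k + 1) = τ k := fun k => by
    rw [hτ, hτ, pow_succ]
    field_simp
  have hanti : Antitone τ := antitone_nat_of_succ_le fun k => by
    have := hτs k
    have := hτnn (k + 1)
    linarith
  have hlev : ∀ a, ∃ k : ℕ, 0 < lam a → lam a ≤ τ k ∧ τ k ≤ 25 * lam a := by
    intro a
    by_cases ha : 0 < lam a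
    · obtain ⟨k, hk1, hk2⟩ := exists_nat_pow_near (x := τ0 / lam a) (y := 25)
        (by rw [le_div_iff₀ ha]; linarith [hlamτ a]) (by norm_num)
      refine ⟨k, fun _ => ⟨?_, ?_⟩⟩
      · rw [hτ, le_div_iff₀ (by positivity)]
        rw [le_div_iff₀ ha] at hk1
        linarith
      · rw [hτ, div_le_iff₀ (by positivity)]
        rw [div_lt_iff₀ ha, pow_succ] at hk2
        linarith
    · exact ⟨0, fun h => absurd h ha⟩
  choose lev hlev using hlev
  obtain ⟨s, hs⟩ : ∃ s : Finset ι, s = Finset.univ.filter fun a => 0 < lam a := ⟨_, rfl⟩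
  have hmem : ∀ a, a ∈ s ↔ 0 < lam a := fun a => by rw [hs, Finset.mem_filter]; simp
  obtain ⟨K, hK⟩ : ∃ K, K = (Finset.univ.sup lev) + 1 := ⟨_, rfl⟩
  have hsK : s.filter (fun a => lev a < K) = s := by
    rw [Finset.filter_eq_self]
    intro a _
    rw [hK]
    exact Nat.lt_succ_of_le (Finset.le_sup (Finset.mem_univ a))
  obtain ⟨w, hw, hle⟩ := build s lev (v := v) (fun a _ => hv a) hτnn hτs K
  rw [hsK] at hw hle
  obtain ⟨w', hw'⟩ : ∃ w' : ι → E, ∀ a, w' a = if a ∈ s then w a else 0 := ⟨_, fun _ => rfl⟩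
  refine ⟨w', fun h => ?_, ?_⟩
  · have h1 : ∑ a, ‖inner ℂ (w' a) h‖ ^ 2 = ∑ a ∈ s, ‖inner ℂ (w a) h‖ ^ 2 := by
      rw [← Finset.sum_subset (Finset.subset_univ s)]
      · exact Finset.sum_congr rfl fun a ha => by rw [hw', if_pos ha]
      · intro a _ ha
        rw [hw', if_neg ha]
        simp
    rw [h1]
    exact bessel hw h
  · have h1 : ∑ a, lam a * (1 - (inner ℂ (w' a) (v a)).re) =
        ∑ a ∈ s, lam a * (1 - (inner ℂ (w a) (v a)).re) := by
      rw [← Finset.sum_subset (Finset.subset_univ s)]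
      · exact Finset.sum_congr rfl fun a ha => by rw [hw', if_pos ha]
      · intro a _ ha
        rw [hmem] at ha
        have : lam a = 0 := le_antisymm (not_lt.1 ha) (hlam a)
        rw [this, zero_mul]
    rw [h1]
    have h2 : ∑ a ∈ s, lam a * (1 - (inner ℂ (w a) (v a)).re) ≤
        ∑ a ∈ s, (τ (lev a) + 25 * τ K) * (1 - (inner ℂ (w a) (v a)).re) := by
      refine Finset.sum_le_sum fun a ha => ?_
      refine mul_le_mul_of_nonneg_right ?_ ?_
      · have := (hlev a ((hmem a).1 ha)).1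
        have := hτnn K
        linarith
      · have h3 : (inner ℂ (w a) (v a)).re ≤ ‖w a‖ * ‖v a‖ :=
          (Complex.re_le_norm _).trans (norm_inner_le_norm _ _)
        rw [hv a, mul_one] at h3
        have := norm_le_one hw ha
        linarith
    refine h2.trans (hle.trans ?_)
    have h3 : ∑ a ∈ s, ∑ b ∈ s, τ (max (lev a) (lev b)) * ovl v a b ≤
        25 * ∑ a, ∑ b, min (lam a) (lam b) * ovl v a b := by
      rw [Finset.mul_sum]
      have h4 : ∑ a ∈ s, ∑ b ∈ s, τ (max (lev a) (lev b)) * ovl v a b ≤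
          ∑ a ∈ s, 25 * ∑ b, min (lam a) (lam b) * ovl v a b := by
        refine Finset.sum_le_sum fun a ha => ?_
        rw [Finset.mul_sum]
        refine le_trans ?_ (Finset.sum_le_sum_of_subset_of_nonneg (Finset.subset_univ s)
          fun b _ _ => ?_)
        · refine Finset.sum_le_sum fun b hb => ?_
          rw [← mul_assoc]
          refine mul_le_mul_of_nonneg_right ?_ (ovl_nonneg v a b)
          have e1 := (hlev a ((hmem a).1 ha)).2
          have e2 := (hlev b ((hmem b).1 hb)).2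
          rcases le_total (lam a) (lam b) with h | h
          · rw [min_eq_left h]
            exact (hanti (le_max_left _ _)).trans e1
          · rw [min_eq_right h]
            exact (hanti (le_max_right _ _)).trans e2
        · have := ovl_nonneg v a b
          have := le_min (hlam a) (hlam b)
          positivity
      refine h4.trans (Finset.sum_le_sum_of_subset_of_nonneg (Finset.subset_univ s)
        fun a _ _ => ?_)
      refine mul_nonneg (by norm_num) (Finset.sum_nonneg fun b _ => ?_)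
      exact mul_nonneg (le_min (hlam a) (hlam b)) (ovl_nonneg v a b)
    linarith

end Pool.Agent.V11261.MT
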