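import Mathlib
import Pool.Agent.V11261.MT.Build

/-!
# The multivariate trace inequality
-/

set_option autoImplicit false

noncomputable section

namespace Pool.Agent.V11261.MT

open Finset Matrix
open scoped ComplexOrder

/-- the Hilbert space `ℂ^d` -/
abbrev EE (d : ℕ) := EuclideanSpace ℂ (Fin d)

/-- complex `d × d` matrices -/
abbrev Mat (d : ℕ) := Matrix (Fin d) (Fin d) ℂ

variable {d : ℕ}

/-- the action of a matrix -/
def LL (A : Mat d) : EE d →ₗ[ℂ] EE d := toEuclideanLin A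

theorem LL_mul (A B : Mat d) (x : EE d) : LL (A * B) x = LL A (LL B x) := by
  unfold LL
  rw [Matrix.toLpLin_apply, Matrix.toLpLin_apply, Matrix.toLpLin_apply, mulVec_mulVec]

theorem LL_sub (A B : Mat d) (x : EE d) : LL (A - B) x = LL A x - LL B x := by
  unfold LL
  rw [map_sub, LinearMap.sub_apply]

theorem LL_sum {n : ℕ} (A : Fin n → Mat d) (x : EE d) : LL (∑ j, A j) x = ∑ j, LL (A j) x := by
  unfold LL
  rw [map_sum, LinearMap.sum_apply]

theorem LL_symm {A : Mat d} (hA : A.IsHermitian) (x y : EE d) :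
    inner ℂ (LL A x) y = inner ℂ x (LL A y) :=
  (isSymmetric_toEuclideanLin_iff.2 hA) x y

theorem LL_trace (A : Mat d) (u : OrthonormalBasis (Fin d) ℂ (EE d)) :
    A.trace = ∑ x, inner ℂ (u x) (LL A (u x)) := by
  have h1 : (LL A).trace ℂ (EE d) = A.trace := by
    unfold LL
    rw [toEuclideanLin_eq_toLin_orthonormal, trace_toLin_eq]
  rw [← h1, LinearMap.trace_eq_sum_inner (LL A) u]

theorem spec_herm {A : Mat d} (hA : A.IsHermitian) :
    ∃ (u : OrthonormalBasis (Fin d) ℂ (EE d)) (lam : Fin d → ℝ),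
      ∀ x, LL A (u x) = (lam x : ℂ) • u x := by
  have hS : (LL A).IsSymmetric := isSymmetric_toEuclideanLin_iff.2 hA
  have hd : Module.finrank ℂ (EE d) = d := finrank_euclideanSpace_fin
  exact ⟨hS.eigenvectorBasis hd, hS.eigenvalues hd, fun x => hS.apply_eigenvectorBasis hd x⟩

theorem eig_inner {A : Mat d} {u : OrthonormalBasis (Fin d) ℂ (EE d)} {lam : Fin d → ℝ}
    (h : ∀ x, LL A (u x) = (lam x : ℂ) • u x) (x : Fin d) :
    inner ℂ (u x) (LL A (u x)) = (lam x : ℂ) := by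
  rw [h, inner_smul_right, inner_self_ofReal, u.norm_eq_one]
  simp

theorem trace_eig {A : Mat d} {u : OrthonormalBasis (Fin d) ℂ (EE d)} {lam : Fin d → ℝ}
    (h : ∀ x, LL A (u x) = (lam x : ℂ) • u x) : A.trace.re = ∑ x, lam x := by
  rw [LL_trace A u, Complex.re_sum]
  exact Finset.sum_congr rfl fun x _ => by rw [eig_inner h, Complex.ofReal_re]

theorem quad_eig {A : Mat d} (hA : A.IsHermitian) {u : OrthonormalBasis (Fin d) ℂ (EE d)}
    {lam : Fin d → ℝ} (h : ∀ x, LL A (u x) = (lam x : ℂ) • u x) (y : EE d) :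
    inner ℂ y (LL A y) = ((∑ x, lam x * ‖inner ℂ (u x) y‖ ^ 2 : ℝ) : ℂ) := by
  rw [← u.sum_inner_mul_inner, Complex.ofReal_sum]
  refine Finset.sum_congr rfl fun x _ => ?_
  rw [← LL_symm hA, h, inner_smul_left, Complex.conj_ofReal, Complex.ofReal_mul,
    ← mul_inner_symm]
  ring

theorem spec {A : Mat d} (hA : A.PosSemidef) :
    ∃ (u : OrthonormalBasis (Fin d) ℂ (EE d)) (lam : Fin d → ℝ),
      (∀ x, LL A (u x) = (lam x : ℂ) • u x) ∧ ∀ x, 0 ≤ lam x := by
  obtain ⟨u, lam, h⟩ := spec_herm hA.isHermitian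
  refine ⟨u, lam, h, fun x => ?_⟩
  have h1 := eig_inner h x
  have h2 : (toEuclideanLin A).IsPositive := isPositive_toEuclideanLin_iff.2 hA
  have h3 := h2.re_inner_nonneg_right (u x)
  have h4 : inner ℂ (u x) (toEuclideanLin A (u x)) = (lam x : ℂ) := h1
  rw [h4] at h3
  exact h3

/-- the lower bound for `Tr √(∑ A_j²)` -/
theorem part_one {n : ℕ} {A : Fin n → Mat d} (hA : ∀ j, (A j).IsHermitian) {S : Mat d}
    (hS : S.PosSemidef) (hS2 : S * S = ∑ j, A j * A j)
    {b : Fin n → OrthonormalBasis (Fin d) ℂ (EE d)} {lam : Fin n → Fin d → ℝ}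
    (hlam : ∀ j i, 0 ≤ lam j i) (hb : ∀ j i, LL (A j) (b j i) = (lam j i : ℂ) • b j i)
    {w : Fin n × Fin d → EE d} (hw : ∀ h : EE d, ∑ a, ‖inner ℂ (w a) h‖ ^ 2 ≤ ‖h‖ ^ 2) :
    ∑ a : Fin n × Fin d, lam a.1 a.2 * (inner ℂ (w a) (b a.1 a.2)).re ≤ S.trace.re := by
  obtain ⟨u, μ, hu, hμ⟩ := spec hS
  rw [trace_eig hu]
  -- the weights
  have hwt : ∀ x, ∑ a : Fin n × Fin d, (lam a.1 a.2 * ‖inner ℂ (u x) (b a.1 a.2)‖) ^ 2 =
      μ x ^ 2 := by
    intro x
    have h1 : ∀ j, ∑ i, (lam j i * ‖inner ℂ (u x) (b j i)‖) ^ 2 = ‖LL (A j) (u x)‖ ^ 2 := by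
      intro j
      rw [← (b j).sum_sq_norm_inner_right]
      refine Finset.sum_congr rfl fun i _ => ?_
      rw [← LL_symm (hA j), hb, inner_smul_left, norm_mul, RCLike.norm_conj, Complex.norm_real,
        Real.norm_eq_abs, abs_of_nonneg (hlam j i), norm_inner_symm' (b j i)]
    rw [Fintype.sum_prod_type]
    simp only [h1]
    apply Complex.ofReal_injective
    have h2 : ((μ x ^ 2 : ℝ) : ℂ) = inner ℂ (u x) (LL (S * S) (u x)) := by
      rw [LL_mul, ← LL_symm hS.isHermitian, hu, inner_smul_left, inner_smul_right,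
        Complex.conj_ofReal, inner_self_ofReal, u.norm_eq_one]
      push_cast
      ring
    rw [h2, hS2, LL_sum, inner_sum, Complex.ofReal_sum]
    refine Finset.sum_congr rfl fun j _ => ?_
    rw [LL_mul, ← LL_symm (hA j), inner_self_ofReal]
  have h1 : ∀ a : Fin n × Fin d, lam a.1 a.2 * (inner ℂ (w a) (b a.1 a.2)).re ≤
      ∑ x, (lam a.1 a.2 * ‖inner ℂ (u x) (b a.1 a.2)‖) * ‖inner ℂ (w a) (u x)‖ := by
    intro a
    have h2 : (inner ℂ (w a) (b a.1 a.2)).re ≤
        ∑ x, ‖inner ℂ (w a) (u x)‖ * ‖inner ℂ (u x) (b a.1 a.2)‖ := by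
      refine (Complex.re_le_norm _).trans ?_
      rw [← u.sum_inner_mul_inner]
      refine (norm_sum_le _ _).trans (le_of_eq ?_)
      exact Finset.sum_congr rfl fun x _ => norm_mul _ _
    refine (mul_le_mul_of_nonneg_left h2 (hlam _ _)).trans (le_of_eq ?_)
    rw [Finset.mul_sum]
    refine Finset.sum_congr rfl fun x _ => ?_
    ring
  refine (Finset.sum_le_sum fun a _ => h1 a).trans ?_
  rw [Finset.sum_comm]
  refine Finset.sum_le_sum fun x _ => ?_
  have h3 := Finset.sum_mul_sq_le_sq_mul_sq Finset.univ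
    (fun a : Fin n × Fin d => lam a.1 a.2 * ‖inner ℂ (u x) (b a.1 a.2)‖)
    (fun a => ‖inner ℂ (w a) (u x)‖)
  rw [hwt x] at h3
  have h4 := hw (u x)
  rw [u.norm_eq_one, one_pow] at h4
  have h5 : (∑ a : Fin n × Fin d, lam a.1 a.2 * ‖inner ℂ (u x) (b a.1 a.2)‖ *
      ‖inner ℂ (w a) (u x)‖) ^ 2 ≤ μ x ^ 2 := by
    refine h3.trans ?_
    have := sq_nonneg (μ x)
    nlinarith
  exact abs_le_of_sq_le_sq' h5 (hμ x) |>.2

/-- the Nussbaum and Szkola bound -/
theorem part_two {A B T : Mat d} (hA : A.PosSemidef) (hB : B.PosSemidef) (hT : T.PosSemidef)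
    (hT2 : T * T = (A - B)ᴴ * (A - B)) {u v : OrthonormalBasis (Fin d) ℂ (EE d)}
    {lam mu : Fin d → ℝ} (hlam : ∀ i, 0 ≤ lam i) (hmu : ∀ i, 0 ≤ mu i)
    (hu : ∀ i, LL A (u i) = (lam i : ℂ) • u i) (hv : ∀ i, LL B (v i) = (mu i : ℂ) • v i) :
    ∑ i, ∑ k, min (lam i) (mu k) * ‖inner ℂ (u i) (v k)‖ ^ 2 ≤
      (A + B).trace.re - T.trace.re := by
  have hXH : (A - B).IsHermitian := hA.isHermitian.sub hB.isHermitian
  rw [hXH.eq] at hT2
  obtain ⟨y, ξ, hy⟩ := spec_herm hXH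
  obtain ⟨α, hα⟩ : ∃ α : Fin d → ℝ, ∀ z, α z = ∑ i, lam i * ‖inner ℂ (u i) (y z)‖ ^ 2 :=
    ⟨_, fun _ => rfl⟩
  obtain ⟨β, hβ⟩ : ∃ β : Fin d → ℝ, ∀ z, β z = ∑ i, mu i * ‖inner ℂ (v i) (y z)‖ ^ 2 :=
    ⟨_, fun _ => rfl⟩
  have hα1 : ∀ z, inner ℂ (y z) (LL A (y z)) = (α z : ℂ) := fun z => by
    rw [quad_eig hA.isHermitian hu, hα]
  have hβ1 : ∀ z, inner ℂ (y z) (LL B (y z)) = (β z : ℂ) := fun z => by
    rw [quad_eig hB.isHermitian hv, hβ]
  have hξ : ∀ z, ξ z = α z - β z := by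
    intro z
    apply Complex.ofReal_injective
    rw [← eig_inner hy z, LL_sub, inner_sub_right, hα1, hβ1]
    push_cast
    rfl
  -- the trace of `T`
  have hTtr : T.trace.re ≤ ∑ z, |ξ z| := by
    rw [LL_trace T y, Complex.re_sum]
    refine Finset.sum_le_sum fun z _ => ?_
    refine (Complex.re_le_norm _).trans ((norm_inner_le_norm _ _).trans ?_)
    rw [y.norm_eq_one, one_mul]
    have h1 : ‖LL T (y z)‖ ^ 2 = ξ z ^ 2 := by
      apply Complex.ofReal_injective
      rw [← inner_self_ofReal, LL_symm hT.isHermitian, ← LL_mul, hT2, LL_mul,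
        ← LL_symm hXH, hy, inner_smul_left, inner_smul_right, Complex.conj_ofReal,
        inner_self_ofReal, y.norm_eq_one]
      push_cast
      ring
    rw [← abs_of_nonneg (norm_nonneg (LL T (y z)))]
    exact (sq_eq_sq_iff_abs_eq_abs _ _).1 h1 |>.le
  have hABtr : (A + B).trace.re = ∑ z, (α z + β z) := by
    rw [Matrix.trace_add, Complex.add_re, LL_trace A y, LL_trace B y, Complex.re_sum,
      Complex.re_sum, Finset.sum_add_distrib]
    congr 1
    · exact Finset.sum_congr rfl fun z _ => by rw [hα1, Complex.ofReal_re]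
    · exact Finset.sum_congr rfl fun z _ => by rw [hβ1, Complex.ofReal_re]
  obtain ⟨Z, hZ⟩ : ∃ Z : Finset (Fin d), Z = Finset.univ.filter fun z => 0 < ξ z := ⟨_, rfl⟩
  have hdiff : ∑ z, (α z + β z) - ∑ z, |ξ z| = 2 * ∑ z ∈ Z, β z + 2 * ∑ z ∈ Zᶜ, α z := by
    rw [← Finset.sum_sub_distrib, ← Finset.sum_add_sum_compl Z, Finset.mul_sum, Finset.mul_sum]
    congr 1
    · refine Finset.sum_congr rfl fun z hz => ?_
      rw [hZ, Finset.mem_filter] at hz
      rw [abs_of_pos hz.2, hξ]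
      ring
    · refine Finset.sum_congr rfl fun z hz => ?_
      rw [Finset.mem_compl, hZ, Finset.mem_filter, not_and, not_lt] at hz
      rw [abs_of_nonpos (hz (Finset.mem_univ z)), hξ]
      ring
  -- the pieces of the overlaps
  obtain ⟨p, hp⟩ : ∃ p : Fin d → EE d, ∀ k, p k = ∑ z ∈ Z, inner ℂ (y z) (v k) • y z :=
    ⟨_, fun _ => rfl⟩
  obtain ⟨q, hq⟩ : ∃ q : Fin d → EE d, ∀ i, q i = ∑ z ∈ Zᶜ, inner ℂ (y z) (u i) • y z :=
    ⟨_, fun _ => rfl⟩
  have hproj : ∀ (R : Finset (Fin d)) (x : EE d),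
      ‖∑ z ∈ R, inner ℂ (y z) x • y z‖ ^ 2 = ∑ z ∈ R, ‖inner ℂ (y z) x‖ ^ 2 := by
    intro R x
    have hite : ∀ x z, inner ℂ (y x) (y z) = if x = z then (1 : ℂ) else 0 :=
      orthonormal_iff_ite.1 y.orthonormal
    apply Complex.ofReal_injective
    rw [← inner_self_ofReal, sum_inner, Complex.ofReal_sum]
    refine Finset.sum_congr rfl fun z hz => ?_
    rw [inner_sum, Finset.sum_eq_single z]
    · rw [inner_smul_left, inner_smul_right, hite, if_pos rfl, mul_one, inner_conj_symm,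
        mul_comm, mul_inner_symm]
    · intro z' _ hz'
      rw [inner_smul_left, inner_smul_right, hite, if_neg (Ne.symm hz'), mul_zero, mul_zero]
    · intro h
      exact absurd hz h
  have hsplit : ∀ i k, inner ℂ (u i) (v k) = inner ℂ (u i) (p k) + inner ℂ (q i) (v k) := by
    intro i k
    rw [← y.sum_inner_mul_inner, ← Finset.sum_add_sum_compl Z, hp, hq, inner_sum, sum_inner]
    congr 1
    · refine Finset.sum_congr rfl fun z _ => ?_
      rw [inner_smul_right, mul_comm]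
    · refine Finset.sum_congr rfl fun z _ => ?_
      rw [inner_smul_left, inner_conj_symm]
  have hbound : ∀ i k, min (lam i) (mu k) * ‖inner ℂ (u i) (v k)‖ ^ 2 ≤
      2 * (mu k * ‖inner ℂ (u i) (p k)‖ ^ 2) + 2 * (lam i * ‖inner ℂ (q i) (v k)‖ ^ 2) := by
    intro i k
    obtain ⟨P, hP⟩ : ∃ P, P = ‖inner ℂ (u i) (p k)‖ := ⟨_, rfl⟩
    obtain ⟨Q, hQ⟩ : ∃ Q, Q = ‖inner ℂ (q i) (v k)‖ := ⟨_, rfl⟩
    have h1 : ‖inner ℂ (u i) (v k)‖ ≤ P + Q := by
      rw [hsplit, hP, hQ]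
      exact norm_add_le _ _
    have h2 : ‖inner ℂ (u i) (v k)‖ ^ 2 ≤ 2 * P ^ 2 + 2 * Q ^ 2 := by
      have := pow_le_pow_left₀ (norm_nonneg _) h1 2
      nlinarith [sq_nonneg (P - Q)]
    rw [← hP, ← hQ]
    have h3 : 0 ≤ min (lam i) (mu k) := le_min (hlam i) (hmu k)
    have h4 : min (lam i) (mu k) ≤ lam i := min_le_left _ _
    have h5 : min (lam i) (mu k) ≤ mu k := min_le_right _ _
    have h6 := mul_le_mul_of_nonneg_left h2 h3
    nlinarith [mul_le_mul_of_nonneg_right h4 (sq_nonneg Q),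
      mul_le_mul_of_nonneg_right h5 (sq_nonneg P)]
  refine (Finset.sum_le_sum fun i _ => Finset.sum_le_sum fun k _ => hbound i k).trans ?_
  have hP : ∑ i, ∑ k, 2 * (mu k * ‖inner ℂ (u i) (p k)‖ ^ 2) = 2 * ∑ z ∈ Z, β z := by
    rw [Finset.sum_comm]
    have h1 : ∀ k ∈ Finset.univ, ∑ i, 2 * (mu k * ‖inner ℂ (u i) (p k)‖ ^ 2) =
        2 * (mu k * ∑ z ∈ Z, ‖inner ℂ (y z) (v k)‖ ^ 2) := by
      intro k _
      rw [← Finset.mul_sum, ← Finset.mul_sum, u.sum_sq_norm_inner_right, hp, hproj]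
    rw [Finset.sum_congr rfl h1, ← Finset.mul_sum]
    congr 1
    simp only [hβ, Finset.mul_sum]
    rw [Finset.sum_comm]
    refine Finset.sum_congr rfl fun z _ => Finset.sum_congr rfl fun k _ => ?_
    rw [norm_inner_symm']
  have hQ : ∑ i, ∑ k, 2 * (lam i * ‖inner ℂ (q i) (v k)‖ ^ 2) = 2 * ∑ z ∈ Zᶜ, α z := by
    have h1 : ∀ i ∈ Finset.univ, ∑ k, 2 * (lam i * ‖inner ℂ (q i) (v k)‖ ^ 2) =
        2 * (lam i * ∑ z ∈ Zᶜ, ‖inner ℂ (y z) (u i)‖ ^ 2) := by
      intro i _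
      rw [← Finset.mul_sum, ← Finset.mul_sum, v.sum_sq_norm_inner_left, hq, hproj]
    rw [Finset.sum_congr rfl h1, ← Finset.mul_sum]
    congr 1
    simp only [hα, Finset.mul_sum]
    rw [Finset.sum_comm]
    refine Finset.sum_congr rfl fun z _ => Finset.sum_congr rfl fun k _ => ?_
    rw [norm_inner_symm']
  simp only [Finset.sum_add_distrib]
  rw [hP, hQ, ← hdiff, hABtr]
  linarith

/-- the multivariate trace inequality with the constant `350` -/
theorem main {n : ℕ} {A : Fin n → Mat d} (hA : ∀ j, (A j).PosSemidef) {S : Mat d}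
    (hS : S.PosSemidef) (hS2 : S * S = ∑ j, A j * A j) {T : Fin n → Fin n → Mat d}
    (hT : ∀ j k, (T j k).PosSemidef)
    (hT2 : ∀ j k, T j k * T j k = (A j - A k)ᴴ * (A j - A k)) :
    350 * ∑ j, ∑ k ∈ Finset.Ioi j, ((T j k).trace.re - (A j + A k).trace.re) ≤
      S.trace.re - ∑ j, (A j).trace.re := by
  have hex := fun j => spec (hA j)
  choose b lam hb hlam using hex
  obtain ⟨w, hw, hle⟩ := family (ι := Fin n × Fin d) (lam := fun a => lam a.1 a.2)
    (fun a => hlam a.1 a.2) (v := fun a => b a.1 a.2) (fun a => (b a.1).norm_eq_one a.2)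
  have h1 := part_one (fun j => (hA j).isHermitian) hS hS2 hlam hb hw
  have h2 : ∑ a : Fin n × Fin d, lam a.1 a.2 = ∑ j, (A j).trace.re := by
    rw [Fintype.sum_prod_type]
    exact Finset.sum_congr rfl fun j _ => (trace_eig (hb j)).symm
  have h3 : ∑ a : Fin n × Fin d, lam a.1 a.2 * (1 - (inner ℂ (w a) (b a.1 a.2)).re) =
      ∑ j, (A j).trace.re - ∑ a : Fin n × Fin d, lam a.1 a.2 *
        (inner ℂ (w a) (b a.1 a.2)).re := by
    rw [← h2, ← Finset.sum_sub_distrib]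
    refine Finset.sum_congr rfl fun a _ => ?_
    ring
  rw [h3] at hle
  -- the pair sum
  obtain ⟨NS, hNS⟩ : ∃ NS : Fin n → Fin n → ℝ, ∀ j l, NS j l =
      ∑ i, ∑ k, min (lam j i) (lam l k) * ‖inner ℂ (b j i) (b l k)‖ ^ 2 := ⟨_, fun _ _ => rfl⟩
  have hNSc : ∀ j l, NS j l = NS l j := by
    intro j l
    rw [hNS, hNS, Finset.sum_comm]
    refine Finset.sum_congr rfl fun k _ => Finset.sum_congr rfl fun i _ => ?_
    rw [min_comm, norm_inner_symm']
  have hNSb : ∀ j l, NS j l ≤ (A j + A l).trace.re - (T j l).trace.re := by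
    intro j l
    rw [hNS]
    exact part_two (hA j) (hA l) (hT j l) (hT2 j l) (hlam j) (hlam l) (hb j) (hb l)
  have hpair : ∑ a : Fin n × Fin d, ∑ c : Fin n × Fin d, min (lam a.1 a.2) (lam c.1 c.2) *
      ovl (fun a : Fin n × Fin d => b a.1 a.2) a c =
      ∑ j, ∑ l, if j = l then 0 else NS j l := by
    rw [Fintype.sum_prod_type]
    refine Finset.sum_congr rfl fun j _ => ?_
    have e1 : ∀ i, ∑ c : Fin n × Fin d, min (lam j i) (lam c.1 c.2) *
        ovl (fun a : Fin n × Fin d => b a.1 a.2) (j, i) c =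
        ∑ l, ∑ k, min (lam j i) (lam l k) *
          ovl (fun a : Fin n × Fin d => b a.1 a.2) (j, i) (l, k) := fun i => by
      rw [Fintype.sum_prod_type]
    simp only [e1]
    rw [Finset.sum_comm]
    refine Finset.sum_congr rfl fun l _ => ?_
    by_cases hjl : j = l
    · rw [if_pos hjl]
      subst hjl
      refine Finset.sum_eq_zero fun i _ => Finset.sum_eq_zero fun k _ => ?_
      unfold ovl
      by_cases hik : i = k
      · subst hik
        rw [if_pos rfl, mul_zero]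
      · have hne : (j, i) ≠ (j, k) := fun h => hik (Prod.ext_iff.1 h).2
        rw [if_neg hne]
        have h0 : inner ℂ (b j i) (b j k) = 0 := (b j).orthonormal.2 hik
        simp only [h0]
        simp
    · rw [if_neg hjl, hNS]
      refine Finset.sum_congr rfl fun i _ => Finset.sum_congr rfl fun k _ => ?_
      have hne : (j, i) ≠ (l, k) := fun h => hjl (Prod.ext_iff.1 h).1
      unfold ovl
      rw [if_neg hne]
  have hsym : ∑ j, ∑ l, (if j = l then 0 else NS j l) = 2 * ∑ j, ∑ l ∈ Finset.Ioi j, NS j l := by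
    have e1 : ∀ j, ∑ l ∈ Finset.Ioi j, NS j l = ∑ l, if j < l then NS j l else 0 := by
      intro j
      rw [← Finset.sum_filter]
      refine Finset.sum_congr ?_ fun _ _ => rfl
      ext l
      simp
    have e2 : ∑ j, ∑ l, (if j = l then 0 else NS j l) =
        ∑ j, ∑ l, ((if j < l then NS j l else 0) + if l < j then NS j l else 0) := by
      refine Finset.sum_congr rfl fun j _ => Finset.sum_congr rfl fun l _ => ?_
      rcases lt_trichotomy j l with h | h | h
      · rw [if_neg h.ne, if_pos h, if_neg h.not_gt, add_zero]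
      · rw [if_pos h, if_neg (by rw [h]; exact lt_irrefl _), if_neg (by rw [h]; exact lt_irrefl _),
          add_zero]
      · rw [if_neg h.ne', if_neg h.not_gt, if_pos h, zero_add]
    rw [e2]
    simp only [Finset.sum_add_distrib, e1]
    have e3 : ∑ j, ∑ l, (if l < j then NS j l else 0) = ∑ j, ∑ l, if j < l then NS j l else 0 := by
      rw [Finset.sum_comm]
      refine Finset.sum_congr rfl fun j _ => Finset.sum_congr rfl fun l _ => ?_
      rw [hNSc]
    rw [e3]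
    ring
  rw [hpair, hsym] at hle
  have h5 : ∑ j, ∑ l ∈ Finset.Ioi j, NS j l ≤
      -∑ j, ∑ k ∈ Finset.Ioi j, ((T j k).trace.re - (A j + A k).trace.re) := by
    rw [← Finset.sum_neg_distrib]
    refine Finset.sum_le_sum fun j _ => ?_
    rw [← Finset.sum_neg_distrib]
    refine Finset.sum_le_sum fun l _ => ?_
    have := hNSb j l
    linarith
  linarith

end Pool.Agent.V11261.MT
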